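import Pool.Agent.Helper27.Mess.Basic
import Pool.Agent.Helper10.Mess.Lift

/-!
# MS-5: a homomorphism `H → ℤ/q` makes `∑ l j β j` divisible by `q` on homology
-/

set_option autoImplicit false

namespace Pool.Agent.Helper27.Mess

open Finset
open scoped IsMulCommutative

universe u v w

variable {Γ : Type u} [Group Γ] {C : Type v} [AddCommGroup C] [Module (MonoidAlgebra ℤ Γ) C]

section twist

variable {H : Type*} [Group H] {A B : Type*} [AddCommGroup A] [AddCommGroup B]

/-- the group `A × B`, with an action of `H` twisted by a homomorphism to `B →+ A`. -/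
def Tw (_ : H →* Multiplicative (B →+ A)) : Type _ := A × B

variable (c : H →* Multiplicative (B →+ A))

instance : AddCommGroup (Tw c) := inferInstanceAs (AddCommGroup (A × B))

instance : DistribMulAction H (Tw c) where
  smul h m := ((m.1 + (c h).toAdd m.2, m.2) : A × B)
  one_smul m := by
    refine Prod.ext ?_ rfl
    change m.1 + (c 1).toAdd m.2 = m.1
    rw [map_one, toAdd_one, AddMonoidHom.zero_apply, add_zero]
  mul_smul h h' m := by
    change ((m.1 + (c (h * h')).toAdd m.2, m.2) : A × B)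
      = ((m.1 + (c h').toAdd m.2 + (c h).toAdd m.2, m.2) : A × B)
    rw [map_mul, toAdd_mul, AddMonoidHom.add_apply]
    rw [add_assoc, add_comm ((c h').toAdd m.2)]
  smul_zero h := by
    change (((0 : A × B).1 + (c h).toAdd (0 : A × B).2, (0 : A × B).2) : A × B) = (0 : A × B)
    simp
  smul_add h m m' := by
    change (((m.1 + m'.1) + (c h).toAdd (m.2 + m'.2), m.2 + m'.2) : A × B)
      = ((m.1 + (c h).toAdd m.2 + (m'.1 + (c h).toAdd m'.2), m.2 + m'.2) : A × B)
    rw [map_add]
    refine Prod.ext ?_ rfl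
    change (m.1 + m'.1) + ((c h).toAdd m.2 + (c h).toAdd m'.2)
      = m.1 + (c h).toAdd m.2 + (m'.1 + (c h).toAdd m'.2)
    abel

/-- a group with the trivial action. -/
def Tv (_ : Type*) (B : Type*) : Type _ := B

instance : AddCommGroup (Tv H B) := inferInstanceAs (AddCommGroup B)

instance : DistribMulAction H (Tv H B) where
  smul _ m := m
  one_smul _ := rfl
  mul_smul _ _ _ := rfl
  smul_zero _ := rfl
  smul_add _ _ _ := rfl

theorem Tv.smul_def (h : H) (m : Tv H B) : h • m = m := rfl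

end twist

section D

variable {G : GrRes Γ C} {r : ℕ} {a : Fin r → Subgroup.center Γ} (S : DSys G a)
  {O : Type w} [CommRing O]

/-- MS-5 (uses MS-4): a homomorphism `H → ℤ/q` makes `∑ l j β j` divisible by `q` on homology. -/
theorem divisibility [Module.Projective (MonoidAlgebra ℤ Γ) C] (H : Subgroup Γ)
    (ha : ∀ j, (a j : Γ) ∈ H) (q : ℕ) (hq0 : 0 < q) (χ : H →* Multiplicative (ZMod q)) (l : Fin r → ℤ)
    (hl : ∀ j, χ ⟨(a j : Γ), ha j⟩ = Multiplicative.ofAdd ((l j : ℤ) : ZMod q))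
    (hq : ∀ y : O, (q : O) * y = 0 → y = 0) (β : Fin r → O) (f : C →+ O) (hf : f ∈ Inv H C O)
    (hDf : S.D β f = 0) :
    ∃ g ∈ Inv H C O, ∃ g' ∈ Inv H C O, S.D β g' = 0 ∧
      (∑ j, (l j : O) * β j) • f = S.D β g + (q : O) • g' := by
  classical
  -- the ring `O / q`
  set I : Ideal O := Ideal.span {(q : O)} with hI
  set mk : O →+* O ⧸ I := Ideal.Quotient.mk I with hmk
  have hmk0 : ∀ y : O, mk y = 0 ↔ ∃ z, y = (q : O) * z := by
    intro y
    rw [hmk, Ideal.Quotient.eq_zero_iff_mem, hI, Ideal.mem_span_singleton']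
    constructor
    · rintro ⟨z, hz⟩
      exact ⟨z, by rw [← hz, mul_comm]⟩
    · rintro ⟨z, hz⟩
      exact ⟨z, by rw [hz, mul_comm]⟩
  have hqI : ((q : ℕ) : O ⧸ I) = 0 := by
    have := (hmk0 (q : O)).2 ⟨1, by rw [mul_one]⟩
    rwa [map_natCast] at this
  -- the additive map `ℤ/q → O/q`
  let κ : ZMod q →+ (O ⧸ I) := ZMod.lift q ⟨Int.castAddHom (O ⧸ I), by
    change ((q : ℤ) : O ⧸ I) = 0
    rw [Int.cast_natCast]
    exact hqI⟩
  have hκ : ∀ n : ℤ, κ (n : ZMod q) = (n : O ⧸ I) := by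
    intro n
    exact ZMod.lift_coe _ _ _
  -- the twist
  let μ : (O ⧸ I) →+ (O →+ (O ⧸ I)) :=
    { toFun := fun u => (AddMonoidHom.mulLeft u).comp mk.toAddMonoidHom
      map_zero' := by ext v; simp
      map_add' := fun u u' => by ext v; simp [add_mul] }
  let c : H →* Multiplicative (O →+ (O ⧸ I)) :=
    (AddMonoidHom.toMultiplicative (μ.comp κ)).comp χ
  have hc : ∀ (h : H) (v : O), (c h).toAdd v = κ (χ h).toAdd * mk v := fun h v => rfl
  -- lifting to the twisted module
  obtain ⟨F, hF, hFp⟩ := equivariant_lift (C := C) H (M := Tw c) (M' := Tv H O)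
    ({ toFun := fun m => (m.2 : O), map_zero' := rfl, map_add' := fun _ _ => rfl } : Tw c →+ Tv H O)
    (fun v => ⟨((0, v) : (O ⧸ I) × O), rfl⟩) (fun _ _ => rfl) f (fun h x => hf h h.2 x)
  let ft : C →+ (O ⧸ I) :=
    { toFun := fun x => (F x : (O ⧸ I) × O).1
      map_zero' := by rw [map_zero]; rfl
      map_add' := fun x y => by rw [map_add]; rfl }
  have hft : ∀ (h : H) (x : C), ft (act (h : Γ) x) = ft x + κ (χ h).toAdd * mk (f x) := by
    intro h x
    have h1 := hF h x
    have h2 : ft (act (h : Γ) x) = (F x : (O ⧸ I) × O).1 + (c h).toAdd (F x : (O ⧸ I) × O).2 :=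
      congrArg (fun m : Tw c => (m : (O ⧸ I) × O).1) h1
    have h3 : (F x : (O ⧸ I) × O).2 = f x := hFp x
    rw [h2, h3, hc]
    rfl
  -- the functional `g~`
  set gt : C →+ (O ⧸ I) := S.D (fun j => mk (β j)) ft with hgt
  have hmf : S.D (fun j => mk (β j)) (mk.toAddMonoidHom.comp f) = 0 := by
    rw [S.D_map, hDf]
    ext x
    simp
  have hgtinv : ∀ (h : H) (x : C), gt (act (h : Γ) x) = gt x := by
    intro h x
    have h1 : gt (act (h : Γ) x) = gt x
        + κ (χ h).toAdd * S.D (fun j => mk (β j)) (mk.toAddMonoidHom.comp f) x := by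
      rw [hgt, S.D_apply, S.D_apply, S.D_apply, Finset.mul_sum, ← Finset.sum_add_distrib]
      refine Finset.sum_congr rfl fun k _ => ?_
      rw [map_act, hft]
      change _ = _ + _ * (_ * mk (f (S.h k x)))
      ring
    rw [h1, hmf, AddMonoidHom.zero_apply, mul_zero, add_zero]
  have hDgt : ∀ x, S.D (fun j => mk (β j)) gt x = mk ((∑ j, (l j : O) * β j) * f x) := by
    intro x
    rw [S.D_apply]
    have h1 := S.double_sum (fun j => mk (β j)) ft x
    have h2 : ∀ k, gt (S.h k x) = ∑ p ∈ S.I, (∏ j, mk (β j) ^ p j) * ft (S.h p (S.h k x)) := by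
      intro k
      rw [hgt, S.D_apply]
    simp only [h2]
    rw [h1]
    have h3 : ∀ j, ft (act (a j : Γ) x) - ft x = (l j : O ⧸ I) * mk (f x) := by
      intro j
      have h4 := hft ⟨(a j : Γ), ha j⟩ x
      rw [hl j] at h4
      change ft (act (a j : Γ) x) = ft x + κ ((l j : ℤ) : ZMod q) * mk (f x) at h4
      rw [h4, hκ]
      ring
    simp only [h3]
    rw [map_mul, map_sum, Finset.sum_mul]
    refine Finset.sum_congr rfl fun j _ => ?_
    rw [map_mul, map_intCast]
    ring
  -- lift to `O`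
  obtain ⟨g, hginv, hgp⟩ := equivariant_lift (C := C) H (M := Tv H O) (M' := Tv H (O ⧸ I))
    (mk.toAddMonoidHom : O →+ O ⧸ I) (Ideal.Quotient.mk_surjective (I := I)) (fun _ _ => rfl) gt
    (fun h x => hgtinv h x)
  let g₀ : C →+ O := g
  have hg₀ : ∀ x, mk (g₀ x) = gt x := hgp
  have hg₀inv : g₀ ∈ Inv H C O := fun h hh x => hginv ⟨h, hh⟩ x
  -- the difference is divisible by `q`
  set Δ : C →+ O := (∑ j, (l j : O) * β j) • f - S.D β g₀ with hΔ
  have hΔdiv : ∀ x, ∃ z, Δ x = (q : O) * z := by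
    intro x
    rw [← hmk0, hΔ, AddMonoidHom.sub_apply, AddMonoidHom.smul_apply, smul_eq_mul, map_sub,
      ← hDgt x]
    have h1 : mk (S.D β g₀ x) = S.D (fun j => mk (β j)) gt x := by
      have h2 := S.D_map mk β g₀
      have h3 : mk.toAddMonoidHom.comp g₀ = gt := by
        ext y
        exact hg₀ y
      rw [h3] at h2
      rw [h2]
      rfl
    rw [h1, sub_self]
  choose z hz using hΔdiv
  have huniq : ∀ y y' : O, (q : O) * y = (q : O) * y' → y = y' := by
    intro y y' h
    have := hq (y - y') (by rw [mul_sub, h, sub_self])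
    exact sub_eq_zero.mp this
  let g' : C →+ O :=
    { toFun := z
      map_zero' := huniq _ _ (by rw [← hz, map_zero, mul_zero])
      map_add' := fun x y => huniq _ _ (by rw [← hz, map_add, hz, hz, mul_add]) }
  have hg' : ∀ x, Δ x = (q : O) * g' x := hz
  have hΔinv : Δ ∈ Inv H C O := sub_mem (Submodule.smul_mem _ _ hf) (S.D_mem β hg₀inv)
  have hg'inv : g' ∈ Inv H C O := fun h hh x => huniq _ _ (by rw [← hg', ← hg', hΔinv h hh])
  have heq : (∑ j, (l j : O) * β j) • f = S.D β g₀ + (q : O) • g' := by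
    ext x
    have h1 := hg' x
    rw [hΔ, AddMonoidHom.sub_apply] at h1
    rw [AddMonoidHom.add_apply, AddMonoidHom.smul_apply (q : O) g' x, smul_eq_mul, ← h1]
    ring
  refine ⟨g₀, hg₀inv, g', hg'inv, ?_, heq⟩
  have h1 := congrArg (S.D β) heq
  rw [map_smul, hDf, smul_zero, map_add, S.D_D ha β hg₀inv, zero_add, map_smul] at h1
  ext x
  apply hq
  have h2 := congrArg (fun φ : C →+ O => φ x) h1
  simpa using h2.symm

end D

end Pool.Agent.Helper27.Mess
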