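import Pool.Agent.Helper27.Mess.Defs

/-!
# MS-1: packing a resolution into one graded module
-/

set_option autoImplicit false

namespace Pool.Agent.Helper27.Mess

open Finset
open scoped IsMulCommutative

universe u v w

section packing

variable {Γ : Type u} [Group Γ] (R : FPResolution.{u, u} Γ)

attribute [local instance] FPResolution.addCommGroup FPResolution.module

/-- the total module of a resolution -/
abbrev FPResolution.Tot : Type u := (i : ℕ) → R.P i

/-- restriction to the degrees `0, ..., length`. -/
noncomputable def FPResolution.totEquiv :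
    R.Tot ≃ₗ[MonoidAlgebra ℤ Γ] ((i : Fin (R.length + 1)) → R.P i) where
  toFun x i := x i
  map_add' _ _ := rfl
  map_smul' _ _ := rfl
  invFun y i := if h : i < R.length + 1 then y ⟨i, h⟩ else 0
  left_inv x := by
    funext i
    by_cases h : i < R.length + 1
    · simp only [dif_pos h]
    · simp only [dif_neg h]
      exact (R.eq_zero i (by omega) (x i)).symm
  right_inv y := by
    funext i
    simp only [dif_pos i.2]

/-- the projection to degree `i` -/
noncomputable def FPResolution.totπ (i : ℤ) : R.Tot →ₗ[MonoidAlgebra ℤ Γ] R.Tot :=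
  LinearMap.pi fun j => if (j : ℤ) = i then LinearMap.proj j else 0

theorem FPResolution.totπ_apply (i : ℤ) (x : R.Tot) (j : ℕ) :
    R.totπ i x j = if (j : ℤ) = i then x j else 0 := by
  simp only [FPResolution.totπ, LinearMap.pi_apply]
  split_ifs <;> rfl

/-- the differential -/
noncomputable def FPResolution.totd : R.Tot →ₗ[MonoidAlgebra ℤ Γ] R.Tot :=
  LinearMap.pi fun j => (R.d j).comp (LinearMap.proj (j + 1))

theorem FPResolution.totd_apply (x : R.Tot) (j : ℕ) : R.totd x j = R.d j (x (j + 1)) := rfl

theorem FPResolution.d_d (i : ℕ) (y : R.P (i + 1 + 1)) : R.d i (R.d (i + 1) y) = 0 :=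
  (R.exact_succ i _).2 ⟨y, rfl⟩

theorem FPResolution.ε_d (y : R.P (0 + 1)) : R.ε (R.d 0 y) = 0 :=
  (R.exact_zero _).2 ⟨y, rfl⟩

/-- the graded module of a resolution -/
noncomputable def FPResolution.grRes : GrRes Γ R.Tot where
  n := R.length
  π := R.totπ
  π_self i x := by
    funext j
    simp only [FPResolution.totπ_apply]
    split_ifs <;> rfl
  π_ne i j x hij := by
    funext k
    simp only [FPResolution.totπ_apply, Pi.zero_apply]
    split_ifs with h1 h2
    · exact absurd (h1.symm.trans h2) hij
    · rfl
    · rfl
  π_neg i x hi := by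
    funext k
    rw [FPResolution.totπ_apply, if_neg (by omega)]
    rfl
  π_big i x hi := by
    funext k
    rw [FPResolution.totπ_apply]
    split_ifs with h
    · exact R.eq_zero k (by omega) (x k)
    · rfl
  π_sum x := by
    funext k
    rw [Finset.sum_apply]
    simp only [FPResolution.totπ_apply]
    by_cases hk : k < R.length + 1
    · rw [Finset.sum_eq_single k]
      · rw [if_pos rfl]
      · intro b _ hb
        rw [if_neg (by omega)]
      · intro hk'
        exact absurd (Finset.mem_range.2 hk) hk'
    · rw [R.eq_zero k (by omega) (x k)]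
      exact R.eq_zero k (by omega) _
  d := R.totd
  d_π i x := by
    funext k
    rw [FPResolution.totd_apply, FPResolution.totπ_apply, FPResolution.totπ_apply,
      FPResolution.totd_apply]
    by_cases h : ((k + 1 : ℕ) : ℤ) = i
    · rw [if_pos h, if_pos (by push_cast at h; omega)]
    · rw [if_neg h, if_neg (by push_cast at h; omega), map_zero]
  ε :=
    { toFun := fun x => R.ε (x 0)
      map_zero' := by rw [Pi.zero_apply, map_zero]
      map_add' := fun x y => by rw [Pi.add_apply, map_add] }
  ε_act g x := R.ε_of_smul g (x 0)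
  ε_π x := by
    change R.ε (R.totπ 0 x 0) = R.ε (x 0)
    rw [FPResolution.totπ_apply, if_pos (by simp)]
  ε_surj z := by
    obtain ⟨y, hy⟩ := R.ε_surjective z
    refine ⟨Pi.single 0 y, ?_⟩
    change R.ε (Pi.single (M := fun i => R.P i) 0 y 0) = z
    rw [Pi.single_eq_same, hy]
  exact x := by
    constructor
    · rintro ⟨h1, h2⟩
      have hy : ∀ j : ℕ, ∃ y : R.P (j + 1), R.d j y = x j := by
        intro j
        cases j with
        | zero => exact (R.exact_zero (x 0)).1 h2
        | succ j => exact (R.exact_succ j (x (j + 1))).1 (congrFun h1 j)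
      choose y hy using hy
      refine ⟨fun j => match j with
        | 0 => 0
        | j + 1 => y j, ?_⟩
      funext j
      exact hy j
    · rintro ⟨y, rfl⟩
      refine ⟨?_, ?_⟩
      · funext j
        exact R.d_d j (y (j + 1 + 1))
      · exact R.ε_d (y 1)

end packing

/-- MS-1: packing a resolution into one graded module. -/
theorem exists_grRes (Γ : Type u) [Group Γ] (R : FPResolution.{u, u} Γ) :
    ∃ (C : Type u) (_ : AddCommGroup C) (_ : Module (MonoidAlgebra ℤ Γ) C),
      Module.Finite (MonoidAlgebra ℤ Γ) C ∧ Module.Projective (MonoidAlgebra ℤ Γ) C ∧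
      Nonempty (GrRes Γ C) := by
  let _ : ∀ i, AddCommGroup (R.P i) := R.addCommGroup
  let _ : ∀ i, Module (MonoidAlgebra ℤ Γ) (R.P i) := R.module
  have : ∀ i, Module.Finite (MonoidAlgebra ℤ Γ) (R.P i) := R.finite
  have : ∀ i, Module.Projective (MonoidAlgebra ℤ Γ) (R.P i) := R.projective
  refine ⟨R.Tot, inferInstance, inferInstance, ?_, ?_, ⟨R.grRes⟩⟩
  · exact Module.Finite.equiv R.totEquiv.symm
  · have h1 : Module.Projective (MonoidAlgebra ℤ Γ) ((i : Fin (R.length + 1)) → R.P i) :=
      Module.Projective.of_equiv (DirectSum.linearEquivFunOnFintype (MonoidAlgebra ℤ Γ)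
        (Fin (R.length + 1)) (fun i => R.P i))
    exact Module.Projective.of_equiv R.totEquiv.symm

end Pool.Agent.Helper27.Mess
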